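import Mathlib

/-!
# H1F: atlases

An atlas describes an integral separated scheme by finitely many subrings of a field `K`.
-/

open CategoryTheory CategoryTheory.Limits AlgebraicGeometry Order

universe u

namespace H1F

/-- The gluing condition: each `R i` has fraction field `K`, and the subring generated by `R i`
and `R j` is a localization of `R i` (and, by symmetry, of `R j`). -/
structure GlueCond {R₀ : Type*} [CommRing R₀] {K : Type*} [Field K] [Algebra R₀ K] {ι : Type*}
    (R : ι → Subalgebra R₀ K) : Prop where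
  frac : ∀ i, IsFractionRing (R i) K
  loc : ∀ i j, ∃ g ∈ R i, g ≠ 0 ∧ R i ⊔ R j = R i ⊔ Algebra.adjoin R₀ {g⁻¹}

variable {R₀ : Type u} [CommRing R₀] {K : Type u} [Field K] [Algebra R₀ K]
  {ι : Type} [Finite ι] [Nonempty ι]

/-- `Spec` of a subalgebra. -/
noncomputable abbrev SpecS (R : Subalgebra R₀ K) : Scheme.{u} := Spec (CommRingCat.of R)

/-- The morphism `Spec S ⟶ Spec R` for `R ≤ S`. -/
noncomputable abbrev specIncl {R S : Subalgebra R₀ K} (h : R ≤ S) : SpecS S ⟶ SpecS R :=
  Spec.map (CommRingCat.ofHom (Subalgebra.inclusion h).toRingHom)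

/-- The morphism `Spec K ⟶ Spec R` (generic point). -/
noncomputable abbrev specGen (R : Subalgebra R₀ K) : Spec (CommRingCat.of K) ⟶ SpecS R :=
  Spec.map (CommRingCat.ofHom R.val.toRingHom)

/-- The structure morphism `Spec R ⟶ Spec R₀`. -/
noncomputable abbrev specBase (R : Subalgebra R₀ K) : SpecS R ⟶ Spec (CommRingCat.of R₀) :=
  Spec.map (CommRingCat.ofHom (algebraMap R₀ R))

/-- `X` is the separated scheme which is glued from the `Spec (R i)` inside `K`. -/
structure Atlas (R : ι → Subalgebra R₀ K) (X : Over (Spec (CommRingCat.of R₀))) where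
  /-- the charts -/
  c : ∀ i, SpecS (R i) ⟶ X.left
  isOpen : ∀ i, IsOpenImmersion (c i)
  base : ∀ i, c i ≫ X.hom = specBase (R i)
  cover : ∀ x : X.left, ∃ (i : ι) (y : SpecS (R i)), c i y = x
  compat : ∀ i j, specGen (R i) ≫ c i = specGen (R j) ≫ c j
  separated : IsSeparated X.hom

end H1F
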