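import Mathlib

/-!
# MP_09f1ef_ag: definitions

Everything is stated with Mathlib's schemes.  A `k`-scheme is an object `X` of `Over (Spec k)`.

1. `LiftsOver p k m X`: there is a flat scheme over `Spec W_m(k)` whose base change to `k` is
   isomorphic to `X` over `k`; `W_m(k)` is Mathlib's `TruncatedWittVector p m k`.
2. `Variety k X`: `X` is integral, normal, separated and of finite type over `k`.
3. Weil divisors are functions on the points of `X`; only the values at the points of
   codimension one (`coheight z = 1`) matter.  `ord g z` is Mathlib's order of vanishing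
   `AlgebraicGeometry.Scheme.ord`.
4. `CanonicalDivisor`: the divisor of a nonzero rational `3`-form.
5. `Ample f D`: relative ampleness by sections with affine non-vanishing loci.
6. `Klt X Δ`: all log discrepancies of divisorial valuation rings with centre on `X` are positive.
7. `DegOn`, `NumTrivial`, `RelPicardOne`: intersection numbers with proper curves.
8. `IsFlip f f' Δ Δ'`: the definition of a `(K_X + Δ)`-flip `X → Y ← X'`.
-/

open CategoryTheory CategoryTheory.Limits AlgebraicGeometry Order

universe u

namespace H1F

/-! ### 1. Liftings -/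

section Lift

variable (p : ℕ) [Fact p.Prime] (k : Type u) [CommRing k]

/-- The reduction map `W_m(k) → k`, `x ↦ x.coeff 0` (`m ≥ 1`). -/
noncomputable def residue (m : ℕ) (hm : 0 < m) : TruncatedWittVector p m k →+* k where
  toFun x := x.coeff ⟨0, hm⟩
  map_zero' := by
    have h : (0 : TruncatedWittVector p m k) = WittVector.truncate m (0 : WittVector p k) :=
      (map_zero _).symm
    rw [h, WittVector.coeff_truncate]
    exact WittVector.zero_coeff p k 0
  map_one' := by
    have h : (1 : TruncatedWittVector p m k) = WittVector.truncate m (1 : WittVector p k) :=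
      (map_one _).symm
    rw [h, WittVector.coeff_truncate]
    exact WittVector.one_coeff_zero p k
  map_add' x y := by
    obtain ⟨x, rfl⟩ := WittVector.truncate_surjective p m k x
    obtain ⟨y, rfl⟩ := WittVector.truncate_surjective p m k y
    rw [← map_add, WittVector.coeff_truncate, WittVector.coeff_truncate,
      WittVector.coeff_truncate]
    exact map_add (WittVector.constantCoeff (p := p) (R := k)) x y
  map_mul' x y := by
    obtain ⟨x, rfl⟩ := WittVector.truncate_surjective p m k x
    obtain ⟨y, rfl⟩ := WittVector.truncate_surjective p m k y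
    rw [← map_mul, WittVector.coeff_truncate, WittVector.coeff_truncate,
      WittVector.coeff_truncate]
    exact map_mul (WittVector.constantCoeff (p := p) (R := k)) x y

/-- `X` lifts over `W_m(k)`: there is a scheme `𝒳`, flat over `Spec W_m(k)`, whose base change
to `Spec k` is isomorphic to `X` as a `k`-scheme. -/
def LiftsOver (m : ℕ) (hm : 0 < m) (X : Over (Spec (CommRingCat.of k))) : Prop :=
  ∃ (𝒳 : Scheme.{u}) (g : 𝒳 ⟶ Spec (CommRingCat.of (TruncatedWittVector p m k))), Flat g ∧
    Nonempty (Over.mk (pullback.snd g (Spec.map (CommRingCat.ofHom (residue p k m hm)))) ≅ X)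

end Lift

/-! ### 2. Varieties -/

section Variety

variable (k : Type u) [Field k]

/-- `X` is a normal variety over `k`: integral, normal, separated and of finite type. -/
structure Variety (X : Over (Spec (CommRingCat.of k))) : Prop where
  integral : IsIntegral X.left
  separated : IsSeparated X.hom
  finiteType : LocallyOfFiniteType X.hom
  quasiCompact : QuasiCompact X.hom
  normal : ∀ x : X.left, IsIntegrallyClosed (X.left.presheaf.stalk x)

/-- The ring homomorphism from `k` to the function field of an integral `k`-scheme. -/
noncomputable def toFunctionField (X : Over (Spec (CommRingCat.of k))) [IsIntegral X.left] :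
    k →+* X.left.functionField :=
  ((X.left.presheaf.germ ⊤ (genericPoint X.left) trivial).hom.comp
    (X.hom.appTop.hom)).comp (Scheme.ΓSpecIso (CommRingCat.of k)).inv.hom

/-- The function field of an integral `k`-scheme is a `k`-algebra. -/
noncomputable instance (X : Over (Spec (CommRingCat.of k))) [IsIntegral X.left] :
    Algebra k X.left.functionField :=
  (toFunctionField k X).toAlgebra

end Variety

/-! ### 3. Rational 3-forms and discrete valuation rings of a function field -/

section Forms

variable (k : Type u) [Field k] (K : Type u) [Field K] [Algebra k K]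

/-- Rational `3`-forms: the third exterior power over `K` of the Kaehler differentials. -/
abbrev Form : Type u := ⋀[K]^3 (Ω[K⁄k])

variable {k K}

/-- The `3`-form `da ∧ db ∧ dc`. -/
noncomputable def wedge (a b c : K) : Form k K :=
  exteriorPower.ιMulti K 3 ![KaehlerDifferential.D k K a, KaehlerDifferential.D k K b,
    KaehlerDifferential.D k K c]

/-- For a `k`-subalgebra `O` of `K`: the `O`-module of rational `3`-forms which is generated by
the `da ∧ db ∧ dc` with `a, b, c ∈ O` (the image of the third exterior power of `Ω_{O/k}`). -/
noncomputable def regularForms (O : Subalgebra k K) : Submodule O (Form k K) :=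
  Submodule.span O {ω | ∃ a ∈ O, ∃ b ∈ O, ∃ c ∈ O, ω = wedge a b c}

/-- `π` is a uniformizer of the discrete valuation ring `O`. -/
def IsUniformizer (O : Subalgebra k K) (π : K) : Prop :=
  ∃ h : π ∈ O, Irreducible (⟨π, h⟩ : O)

/-- The valuation of `f ∈ K`, `f ≠ 0`, at the discrete valuation ring `O` is `n`:
`f = π ^ n u` with a uniformizer `π` and a unit `u` of `O`. -/
def HasOrd (O : Subalgebra k K) (f : K) (n : ℤ) : Prop :=
  ∃ π, IsUniformizer O π ∧ ∃ u : Oˣ, f = π ^ n * ((u : O) : K)

/-- The order of the rational `3`-form `ω` at the discrete valuation ring `O` is `n`: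
`ω` lies in `π ^ n` times the lattice of regular forms, but not in `π ^ (n+1)` times it. -/
def HasFormOrd (O : Subalgebra k K) (ω : Form k K) (n : ℤ) : Prop :=
  ∃ π, IsUniformizer O π ∧ (∃ η ∈ regularForms O, ω = π ^ n • η) ∧
    ¬ ∃ η ∈ regularForms O, ω = π ^ (n + 1) • η

/-- A divisorial valuation ring of a three-dimensional function field `K / k`: a `k`-subalgebra
of `K`, which is a discrete valuation ring with fraction field `K` and whose residue field has
transcendence degree two over `k`. -/
structure IsDivisorial (O : Subalgebra k K) : Prop where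
  dvr : IsDiscreteValuationRing O
  frac : IsFractionRing O K
  trdeg : Algebra.trdeg k (IsLocalRing.ResidueField O) = 2

end Forms

/-! ### 4. Divisors on an integral scheme -/

section Divisors

variable {X : Scheme.{u}} [IsIntegral X] [IsLocallyNoetherian X]

open AlgebraicGeometry.Scheme

/-- `h` is a local equation at the point `x` of the Weil divisor `D`: the orders of vanishing of
`h` agree with `D` at all points of codimension one whose closure contains `x`. -/
def LocalEq (D : X → ℤ) (x : X) (h : X.functionField) : Prop :=
  h ≠ 0 ∧ ∀ z : X, coheight z = 1 → z ⤳ x → ord h z = D z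

/-- `D` is a Cartier divisor (on a normal scheme): it is locally principal, i.e. every point has
an open neighbourhood on which `D` is the divisor of a nonzero rational function. -/
def IsCartier (D : X → ℤ) : Prop :=
  ∀ x : X, ∃ U : X.Opens, x ∈ U ∧ ∃ h : X.functionField, h ≠ 0 ∧
    ∀ z : X, z ∈ U → coheight z = 1 → ord h z = D z

/-- The Cartier divisor `D` is ample relative to `f : X ⟶ Y`: every point of `Y` has an affine
open neighbourhood `V` such that every point `x` of `f⁻¹ V` lies in an affine open set which is
the non-vanishing locus in `f⁻¹ V` of a section `g` over `f⁻¹ V` of `O(n D)` for some `n > 0`. -/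
def Ample {Y : Scheme.{u}} (f : X ⟶ Y) (D : X → ℤ) : Prop :=
  IsCartier D ∧ ∀ y : Y, ∃ V : Y.Opens, IsAffineOpen V ∧ y ∈ V ∧ ∀ x : X, f x ∈ V →
    ∃ (n : ℕ) (g : X.functionField), 0 < n ∧ g ≠ 0 ∧
      (∀ z : X, coheight z = 1 → f z ∈ V → 0 ≤ ord g z + n * D z) ∧
      ∃ U : X.Opens, IsAffineOpen U ∧ x ∈ U ∧ ∀ x' : X, x' ∈ U ↔
        (f x' ∈ V ∧ ∀ z : X, coheight z = 1 → z ⤳ x' → ord g z + n * D z = 0)

/-- The `ℚ`-divisor `D` is ample relative to `f`: some positive integral multiple is an ample
Cartier divisor. -/
def AmpleQ {Y : Scheme.{u}} (f : X ⟶ Y) (D : X → ℚ) : Prop :=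
  ∃ (N : ℕ) (D' : X → ℤ), 0 < N ∧ (∀ z : X, coheight z = 1 → (D' z : ℚ) = N * D z) ∧ Ample f D'

end Divisors

/-! ### 5. Canonical divisors and klt pairs -/

section Klt

variable (k : Type u) [Field k]

/-- The local ring `O_{X,x}` as a `k`-subalgebra of the function field of `X`. -/
noncomputable def localRing (X : Over (Spec (CommRingCat.of k))) [IsIntegral X.left]
    (x : X.left) : Subalgebra k X.left.functionField :=
  Algebra.adjoin k (Set.range (algebraMap (X.left.presheaf.stalk x) X.left.functionField))

/-- `KX` is the canonical divisor of the threefold `X` given by the nonzero rational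
`3`-form `ω`. -/
def IsCanonical (X : Over (Spec (CommRingCat.of k))) [IsIntegral X.left]
    (ω : Form k X.left.functionField) (KX : X.left → ℤ) : Prop :=
  ω ≠ 0 ∧ ∀ z : X.left, coheight z = 1 → HasFormOrd (localRing k X z) ω (KX z)

/-- The valuation ring `O` of the function field has centre `x` on `X`: it dominates the local
ring of `X` at `x`. -/
def HasCentre (X : Over (Spec (CommRingCat.of k))) [IsIntegral X.left]
    (O : Subalgebra k X.left.functionField) (x : X.left) : Prop :=
  ∀ a : X.left.presheaf.stalk x, ∃ h : algebraMap _ X.left.functionField a ∈ O,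
    (IsUnit (⟨_, h⟩ : O) → IsUnit a)

/-- The pair `(X, Δ)` is klt: `Δ` is an effective `ℚ`-divisor, `K_X + Δ` is `ℚ`-Cartier
(`N (K_X + Δ)` is integral and Cartier), and for every divisorial valuation ring `O` with centre
on `X` the log discrepancy `1 + ord_O(ω) - ord_O(h) / N` is positive, where `h` is a local
equation of `N (K_X + Δ)` at the centre and `K_X = div(ω)`. -/
structure Klt (X : Over (Spec (CommRingCat.of k))) [IsIntegral X.left]
    [IsLocallyNoetherian X.left] (Δ : X.left → ℚ) : Prop where
  effective : ∀ z, 0 ≤ Δ z
  support : {z | Δ z ≠ 0}.Finite ∧ ∀ z, Δ z ≠ 0 → coheight z = 1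
  logDiscrepancy : ∃ (ω : Form k X.left.functionField) (KX : X.left → ℤ), IsCanonical k X ω KX ∧
    ∃ (N : ℕ) (D : X.left → ℤ), 0 < N ∧
      (∀ z, coheight z = 1 → (D z : ℚ) = N * (KX z + Δ z)) ∧ IsCartier D ∧
      ∀ (O : Subalgebra k X.left.functionField) (x : X.left), IsDivisorial O →
        HasCentre k X O x → ∀ h, LocalEq D x h → ∀ a b : ℤ, HasFormOrd O ω a → HasOrd O h b →
          (0 : ℚ) < 1 + a - b / N

/-- A klt threefold: a normal quasi-projective threefold `X` with an effective `ℚ`-divisor `Δ`
such that `(X, Δ)` is klt. -/
structure KltThreefold (X : Over (Spec (CommRingCat.of k))) [IsIntegral X.left]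
    [IsLocallyNoetherian X.left] (Δ : X.left → ℚ) : Prop where
  variety : Variety k X
  dim : Algebra.trdeg k X.left.functionField = 3
  quasiProjective : ∃ D : X.left → ℤ, Ample X.hom D
  klt : Klt k X Δ

end Klt

/-! ### 6. Intersection numbers and the relative Picard number -/

section Intersection

open AlgebraicGeometry.Scheme

variable (k : Type u) [Field k]

/-- `i : C ⟶ X` is (the inclusion of) a proper integral curve which is contracted to a point by
the morphism `f`. -/
structure ContractedCurve {X Y : Over (Spec (CommRingCat.of k))} (f : X ⟶ Y) {C : Scheme.{u}}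
    (i : C ⟶ X.left) : Prop where
  integral : IsIntegral C
  closed : IsClosedImmersion i
  proper : IsProper (i ≫ X.hom)
  dim : topologicalKrullDim C = 1
  contracted : ∃ y : Y.left, ∀ c : C, f.left (i c) = y

/-- The degree of the Cartier divisor `D` on the curve `i : C ⟶ X` is `n`.  After adding the
divisor of a rational function `g` the generic point of `C` is not in the support of the divisor;
`u c` is a local equation at `i c` of `D + div g`, it is a unit `t c` of the local ring of `X`
at the generic point of `C`, and the degree is the sum over the points `c` of codimension one of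
`C` of the orders of vanishing of its restriction to `C` (the residue field of `c` is `k`, as `k`
is algebraically closed). -/
def DegOn {X : Scheme.{u}} [IsIntegral X] [IsLocallyNoetherian X] {C : Scheme.{u}} [IsIntegral C]
    [IsLocallyNoetherian C] (i : C ⟶ X) (D : X → ℤ) (n : ℤ) : Prop :=
  ∃ (g : X.functionField) (u : C → X.functionField)
    (t : C → (X.presheaf.stalk (i (genericPoint C)))ˣ), g ≠ 0 ∧
    (∀ c, LocalEq (fun z ↦ D z + ord g z) (i c) (u c)) ∧
    (∀ c, algebraMap (X.presheaf.stalk (i (genericPoint C))) X.functionField (t c) = u c) ∧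
    n = ∑ᶠ c : C, ord (X := C) ((i.stalkMap (genericPoint C)).hom (t c : X.presheaf.stalk _)) c

/-- The Cartier divisor `D` is numerically trivial relative to `f`: it has degree zero on all
contracted curves. -/
def NumTrivial {X Y : Over (Spec (CommRingCat.of k))} [IsIntegral X.left]
    [IsLocallyNoetherian X.left] (f : X ⟶ Y) (D : X.left → ℤ) : Prop :=
  ∀ (C : Scheme.{u}) (_ : IsIntegral C) (_ : IsLocallyNoetherian C) (i : C ⟶ X.left),
    ContractedCurve k f i → ∀ n, DegOn i D n → n = 0

/-- The relative Picard number of `f` is one: modulo numerical equivalence and torsion the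
Cartier divisors on `X` form a group of rank one. -/
def RelPicardOne {X Y : Over (Spec (CommRingCat.of k))} [IsIntegral X.left]
    [IsLocallyNoetherian X.left] (f : X ⟶ Y) : Prop :=
  ∃ H : X.left → ℤ, IsCartier H ∧ ¬ NumTrivial k f H ∧
    ∀ D : X.left → ℤ, IsCartier D → ∃ a b : ℤ, a ≠ 0 ∧ NumTrivial k f (fun z ↦ a * D z - b * H z)

end Intersection

/-! ### 7. Flips -/

section Flip

variable (k : Type u) [Field k]

/-- `f` is a small birational morphism: it is an isomorphism over a non-empty open set of `Y`
whose preimage contains all points of codimension at most one of `X`. -/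
def IsSmall {X Y : Scheme.{u}} (f : X ⟶ Y) : Prop :=
  ∃ V : Y.Opens, (V : Set Y).Nonempty ∧ IsIso (f ∣_ V) ∧ ∀ x : X, coheight x ≤ 1 → f x ∈ V

/-- `X → Y ← X'` is a `(K_X + Δ)`-flip: `f` and `f'` are small proper birational morphisms of
normal varieties, `Y` is quasi-projective, `-(K_X + Δ)` is `f`-ample, the relative Picard number
of `f` is one, `K_{X'} + Δ'` is `f'`-ample, and `Δ'` is the strict transform of `Δ`.
(A proper morphism with a relatively ample divisor is projective, so `X'` is quasi-projective,
too.  The flip `X'` is determined by `(X, Δ)` and `f`.) -/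
structure IsFlip {X Y X' : Over (Spec (CommRingCat.of k))} [IsIntegral X.left]
    [IsLocallyNoetherian X.left] [IsIntegral Y.left] [IsLocallyNoetherian Y.left]
    [IsIntegral X'.left] [IsLocallyNoetherian X'.left]
    (f : X ⟶ Y) (f' : X' ⟶ Y) (Δ : X.left → ℚ) (Δ' : X'.left → ℚ) : Prop where
  varietyX : Variety k X
  varietyY : Variety k Y
  varietyX' : Variety k X'
  quasiProjectiveY : ∃ D : Y.left → ℤ, Ample Y.hom D
  proper : IsProper f.left
  proper' : IsProper f'.left
  small : IsSmall f.left
  small' : IsSmall f'.left
  negative : ∃ (ω : Form k X.left.functionField) (KX : X.left → ℤ), IsCanonical k X ω KX ∧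
    AmpleQ f.left (fun z ↦ -(KX z + Δ z))
  picard : RelPicardOne k f
  positive : ∃ (ω : Form k X'.left.functionField) (KX : X'.left → ℤ), IsCanonical k X' ω KX ∧
    AmpleQ f'.left (fun z ↦ KX z + Δ' z)
  support : ∀ z, Δ' z ≠ 0 → coheight z = 1
  strict : ∀ (x : X.left) (x' : X'.left), coheight x = 1 → coheight x' = 1 →
    f.left x = f'.left x' → Δ' x' = Δ x

end Flip

/-! ### 8. The question -/

/-- The statement of Q1: for all algebraically closed fields of characteristic `p > p₀` and all
flips of klt threefolds, if `X` lifts over `W_m(k)` then so does `X'` (the flip `X'` is unique). -/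
def Question (p₀ : ℕ) : Prop :=
  ∀ (p : ℕ) (_ : Fact p.Prime), p₀ < p → ∀ (k : Type u) [Field k] [IsAlgClosed k] [CharP k p]
    (X Y X' : Over (Spec (CommRingCat.of k))) [IsIntegral X.left] [IsLocallyNoetherian X.left]
    [IsIntegral Y.left] [IsLocallyNoetherian Y.left]
    [IsIntegral X'.left] [IsLocallyNoetherian X'.left]
    (f : X ⟶ Y) (f' : X' ⟶ Y) (Δ : X.left → ℚ) (Δ' : X'.left → ℚ),
    KltThreefold k X Δ → IsFlip k f f' Δ Δ' → ∀ (m : ℕ) (hm : 0 < m),
      LiftsOver p k m hm X → LiftsOver p k m hm X'

end H1F
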