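import Pool.Agent.Lib.H1F.FLIP.F15
import Pool.Agent.Lib.H1F.FLIP.F16
import Pool.Agent.Lib.H1F.KLT.K15
import Pool.Agent.Lib.H1F.KLT.K17
import Pool.Agent.Lib.H1F.KLT.K18
import Pool.Agent.Lib.H1F.AMP.A12
import Pool.Agent.Lib.H1F.NLS.NL6
import Pool.Agent.Lib.H1F.LIFT.L12
import Pool.Agent.Lib.H1F.MO.M13
import Pool.Agent.Lib.H1F.MO.M15
import Pool.Agent.Lib.H1F.N.N11
import Pool.Agent.Lib.H1F.AT.At

/-!
# H1F: final assembly

For every prime `p ≥ 5` and every algebraically closed field `k` of characteristic `p` there is a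
flip `X → Y ← X'` of a klt threefold `(X, Δ)` over `k` such that `X` lifts over `W_m(k)` for all
`m`, but `X'` does not lift over `W_2(k)`.
-/

open CategoryTheory CategoryTheory.Limits AlgebraicGeometry Order MvPolynomial

universe u

namespace H1F

/-- `K` is the field of rational functions. -/
theorem gen_var (k : Type u) [Field k] : Gen k (var k 0) (var k 1) (var k 2) :=
  ⟨(frameOK_var k).ind, exists_frac k⟩

/-- **The example.** -/
theorem exists_example (p : ℕ) [Fact p.Prime] (hp : 5 ≤ p) (k : Type u) [Field k] [IsAlgClosed k]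
    [CharP k p] :
    ∃ (X Y X' : Over (Spec (CommRingCat.of k))) (_ : IsIntegral X.left)
      (_ : IsLocallyNoetherian X.left) (_ : IsIntegral Y.left) (_ : IsLocallyNoetherian Y.left)
      (_ : IsIntegral X'.left) (_ : IsLocallyNoetherian X'.left)
      (f : X ⟶ Y) (f' : X' ⟶ Y) (Δ : X.left → ℚ) (Δ' : X'.left → ℚ),
      KltThreefold k X Δ ∧ IsFlip k f f' Δ Δ' ∧
      (∀ (m : ℕ) (hm : 0 < m), LiftsOver p k m hm X) ∧
      ¬ LiftsOver p k 2 (by norm_num) X' := by
  set K := KF k with hKdef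
  set A : K := var k 0 with hA
  set v : K := var k 1 with hv
  set w : K := var k 2 with hw
  have hg : Gen k A v w := gen_var k
  have hi : AlgebraicIndependent k ![A, v, w] := hg.indep
  have hcK : CharP K p := charP_of_injective_algebraMap (algebraMap k K).injective p
  have hN := fn_ne_zero (k := k) p hp hi
  have hG : FLIP.Gen A v w := AMP.gen_of_ind (k := k) (p := p) hp hi
  have hy : yy p A v w ≠ 0 := AMP.yy_ne_zero (k := k) hp hi
  have hi3 := ind_P3 (k := k) p hi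
  -- the charts
  have gX := glueCond_X (R₀ := k) p hp hN hg.gen
  have gY := glueCond_Y p hp hi hg.gen
  have gX' := glueCond_X' p hp hi hg.gen
  have hfr : ∀ c : Ch, IsFractionRing (ring k p A v w c) K := ring_frac (R₀ := k) p hN hg.gen
  obtain ⟨X, ⟨a⟩⟩ := exists_atlas gX
  obtain ⟨Y, ⟨b⟩⟩ := exists_atlas gY
  obtain ⟨X', ⟨a'⟩⟩ := exists_atlas gX'
  have iX : IsIntegral X.left := a.isIntegral fun c ↦ hfr c.1
  have iY : IsIntegral Y.left := b.isIntegral fun c ↦ hfr c.1
  have iX' : IsIntegral X'.left := a'.isIntegral fun c ↦ hfr c.1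
  obtain ⟨e, he⟩ := a.exists_isFF fun c ↦ hfr c.1
  obtain ⟨eY, heY⟩ := b.exists_isFF fun c ↦ hfr c.1
  obtain ⟨e', he'⟩ := a'.exists_isFF fun c ↦ hfr c.1
  have hL := FLIP.locData_of_isFF a (fun c ↦ hfr c.1) he
  have hM := FLIP.locData_of_isFF b (fun c ↦ hfr c.1) heY
  have hL' := FLIP.locData_of_isFF a' (fun c ↦ hfr c.1) he'
  have cX := a.charts (fun c ↦ hfr c.1) he
  have cY := b.charts (fun c ↦ hfr c.1) heY
  have cX' := a'.charts (fun c ↦ hfr c.1) he'
  simp only [AMP.ring_comap] at cX cY cX'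
  have hge := hg.map e.symm
  have hgY := hg.map eY.symm
  have hge' := hg.map e'.symm
  have nX : IsLocallyNoetherian X.left := cX.isLocallyNoetherian fun c ↦ K13_ring_noeth _ _ _ _ _
  have nY : IsLocallyNoetherian Y.left := cY.isLocallyNoetherian fun c ↦ K13_ring_noeth _ _ _ _ _
  have nX' : IsLocallyNoetherian X'.left :=
    cX'.isLocallyNoetherian fun c ↦ K13_ring_noeth _ _ _ _ _
  have vX : Variety k X := cX.variety (fun c ↦ ring_fg _ _ _ _ _)
    fun c ↦ ring_normal p hp hge.indep hge.gen _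
  have vY : Variety k Y := cY.variety (fun c ↦ ring_fg _ _ _ _ _)
    fun c ↦ ring_normal p hp hgY.indep hgY.gen _
  have vX' : Variety k X' := cX'.variety (fun c ↦ ring_fg _ _ _ _ _)
    fun c ↦ ring_normal p hp hge'.indep hge'.gen _
  -- the morphisms
  obtain ⟨f, hf⟩ := a.exists_hom b (FLIP.hs_X hG)
  obtain ⟨f', hf'⟩ := a'.exists_hom b (FLIP.hs_X' hG)
  have pf : IsProper f.left := FLIP.isProper_X hG hL hM f hf
  have pf' : IsProper f'.left := FLIP.isProper_X' hG hy hL' hM f' hf'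
  have sf := FLIP.small_X hG hi3 hy (fun c ↦ hfr c.1) hL hM f hf
  have sf' := FLIP.small_X' hG hi3 hy (fun c ↦ hfr c.1) hL' hM f' hf'
  have ff := AMP.fiberData_of_locData a b e hL hM f hf (FLIP.hs_X hG)
  have ff' := AMP.fiberData_of_locData a' b e' hL' hM f' hf' (FLIP.hs_X' hG)
  simp only [AMP.ring_comap] at ff ff'
  -- the divisors
  obtain ⟨KX, Δ, hcan, hklt, hD⟩ := exists_divisors hp hg vX e a hL
  let KX' : X'.left → ℤ := FLIP.transport (LK X e) (LK X' e') KX
  let Δ' : X'.left → ℚ := FLIP.transport (LK X e) (LK X' e') Δ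
  have hex : ∀ z' : X'.left, coheight z' = 1 → ∃ z : X.left, coheight z = 1 ∧
      LK X e z = LK X' e' z' := by
    intro z' hz'
    obtain ⟨z, hz, hzc⟩ := FLIP.exists_point hG hi3 hy (fun c ↦ hfr c.1) hL hL' z' hz'.le
    exact ⟨z, hzc.trans hz', hz⟩
  have htr : ∀ (z : X.left) (z' : X'.left), coheight z = 1 → coheight z' = 1 →
      LK X e z = LK X' e' z' → KX' z' = KX z ∧ Δ' z' = Δ z := fun z z' hz hz' h ↦
    ⟨FLIP.transport_eq hL KX hz hz' h, FLIP.transport_eq hL Δ hz hz' h⟩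
  obtain ⟨hcan', hD'⟩ := divisors_X' hp hg vX vX' e e' a a' hL hL' hcan hD hex htr
  have htd : Algebra.trdeg k X.left.functionField = 3 := by
    rw [e.trdeg_eq]
    exact trdeg_eq hg
  refine ⟨X, Y, X', iX, nX, iY, nY, iX', nX', f, f', Δ, Δ', ⟨vX, htd, ?_, hklt⟩,
    ⟨vX, vY, vX', ?_, pf, pf', sf.1, sf'.1, ?_, ?_, ?_, ?_, ?_⟩, ?_, ?_⟩
  · obtain ⟨D, hD, -⟩ := AMP.quasiProjective_X vX cX hp hge.indep
    exact ⟨D, hD⟩
  · exact AMP.quasiProjective_Y vY cY hp hgY.indep
  · refine ⟨_, KX, hcan, AMP.negative vX cX (AMP.gen_of_ind (k := k) hp hge.indep) f ff KX Δ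
      (fun c ↦ e.symm (dd p A v w c)) (fun c ↦ ?_) (fun c z hz hz1 ↦ hD c z hz hz1) ?_⟩
    · exact (map_ne_zero e.symm).2 (dd_ne_zero hg (by omega) c)
    · have hw1 : w - 1 ≠ 0 := hN 4
      have h12 : dd p A v w .P1 = (v - 1) / (w - 1) * dd p A v w .P2 := by
        rw [div_mul_eq_mul_div, eq_div_iff hw1, dd_P1_P2 hg hp, mul_comm]
      rw [h12, map_mul, map_div₀, map_sub, map_sub, map_one]
  · exact AMP.picard vX cX hp hge.indep f ff
  · refine ⟨_, KX', hcan', AMP.positive vX' cX' (AMP.gen_of_ind (k := k) hp hge'.indep)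
      (AMP.yy_ne_zero (k := k) hp hge'.indep) f' ff' KX' Δ'
      (fun c ↦ e'.symm (dd' p A v w c)) (fun c ↦ ?_) (fun c z hz hz1 ↦ hD' c z hz hz1) ?_⟩
    · exact (map_ne_zero e'.symm).2 (dd'_ne_zero hg (by omega) c)
    · change e'.symm (dd p A v w .P4 ^ 2 / yy p A v w) = e'.symm (dd p A v w .P3 ^ 2) / _
      rw [map_div₀, yy_map]
      rfl
  · exact fun z hz ↦ FLIP.transport_support Δ hz
  · intro x x' hx hx' hxx
    have h1 := sf.2 x hx.le
    have h2 := sf'.2 x' hx'.le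
    rw [hxx] at h1
    exact FLIP.transport_eq hL Δ hx hx' (h1.symm.trans h2)
  · exact liftsOver_X p hp k X a
  · exact not_liftsOver p hp hi a' (fun c ↦ hfr c.1) e' hL'

/-- **The answer to Q1**: no bound `p₀` works. -/
theorem not_question (p₀ : ℕ) : ¬ Question.{u} p₀ := by
  intro hq
  obtain ⟨p, hp1, hp2⟩ := Nat.exists_infinite_primes (max (p₀ + 1) 5)
  have hpf := Fact.mk hp2
  let F : Type u := ULift.{u} (ZMod p)
  let k : Type u := AlgebraicClosure F
  have : CharP k p := charP_of_injective_algebraMap (algebraMap F k).injective p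
  obtain ⟨X, Y, X', iX, nX, iY, nY, iX', nX', f, f', Δ, Δ', hk, hflip, hl, hnl⟩ :=
    exists_example p (le_of_max_le_right hp1) k
  exact hnl (hq p hpf (Nat.lt_of_succ_le (le_of_max_le_left hp1)) k X Y X' f f' Δ Δ' hk hflip 2
    (by norm_num) (hl 2 (by norm_num)))

end H1F
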