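import Mathlib

/-!
# MP_09f1ef_ag: definitions

Everything is stated with Mathlib's schemes.  A `k`-scheme is a scheme `X` with a morphism
`s : X ⟶ Spec k`.

1. `LiftsOver p m s`: there is a flat scheme over `Spec W_m(k)` whose base change to `k` is
   `s : X ⟶ Spec k`; `W_m(k)` is Mathlib's `TruncatedWittVector p m k`.
2. `Variety s`: `X` is integral, normal, separated and of finite type over `k`; `FF s` is its
   function field with its structure of `k`-algebra, `localRing s x ⊆ FF s` the local ring.
3. Weil divisors are functions on the points of `X`; only the values at the points of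
   codimension one (`coheight z = 1`) matter.  `ord g z` is Mathlib's order of vanishing
   `AlgebraicGeometry.Scheme.ord`.
4. `IsCanonical`: the divisor of a nonzero rational `3`-form.
5. `Ample f D`: relative ampleness by sections with affine non-vanishing loci.
6. `Klt s Δ`: all log discrepancies of divisorial valuation rings with centre on `X` are positive.
7. `DegOn`, `NumTrivial`, `RelPicardOne`: intersection numbers with proper curves.
8. `IsFlip`: the definition of a `(K_X + Δ)`-flip `X → Y ← X'`.
-/

open CategoryTheory AlgebraicGeometry Order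

universe u

namespace Flip

/-! ### 1. Liftings -/

section Lift

variable (p : ℕ) [Fact p.Prime] {k : Type u} [CommRing k]

variable (k) in
/-- The reduction map `W_m(k) → k`, `x ↦ x.coeff 0` (`m ≥ 1`). -/
noncomputable def residue (m : ℕ) (hm : 0 < m) : TruncatedWittVector p m k →+* k where
  toFun x := x.coeff ⟨0, hm⟩
  map_zero' := by
    have h : (0 : TruncatedWittVector p m k) = WittVector.truncate m (0 : WittVector p k) :=
      (map_zero _).symm
    rw [h, WittVector.coeff_truncate]
    exact WittVector.zero_coeff p k 0
  map_one' := by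
    have h : (1 : TruncatedWittVector p m k) = WittVector.truncate m (1 : WittVector p k) :=
      (map_one _).symm
    rw [h, WittVector.coeff_truncate]
    exact WittVector.one_coeff_zero p k
  map_add' x y := by
    obtain ⟨x, rfl⟩ := WittVector.truncate_surjective p m k x
    obtain ⟨y, rfl⟩ := WittVector.truncate_surjective p m k y
    rw [← map_add, WittVector.coeff_truncate, WittVector.coeff_truncate,
      WittVector.coeff_truncate]
    exact map_add (WittVector.constantCoeff (p := p) (R := k)) x y
  map_mul' x y := by
    obtain ⟨x, rfl⟩ := WittVector.truncate_surjective p m k x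
    obtain ⟨y, rfl⟩ := WittVector.truncate_surjective p m k y
    rw [← map_mul, WittVector.coeff_truncate, WittVector.coeff_truncate,
      WittVector.coeff_truncate]
    exact map_mul (WittVector.constantCoeff (p := p) (R := k)) x y

/-- `s : X ⟶ Spec k` lifts over `W_m(k)`: there is a scheme `𝒳`, flat over `Spec W_m(k)`, whose
base change to `Spec k` is `X` (there is a cartesian square). -/
def LiftsOver (m : ℕ) (hm : 0 < m) {X : Scheme.{u}} (s : X ⟶ Spec (CommRingCat.of k)) : Prop :=
  ∃ (𝒳 : Scheme.{u}) (g : 𝒳 ⟶ Spec (CommRingCat.of (TruncatedWittVector p m k))) (i : X ⟶ 𝒳),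
    Flat g ∧ IsPullback i s g (Spec.map (CommRingCat.ofHom (residue p k m hm)))

end Lift

/-! ### 2. Varieties -/

section Variety

variable {k : Type u} [Field k] {X : Scheme.{u}} (s : X ⟶ Spec (CommRingCat.of k))

/-- `X` is a normal variety over `k`: integral, normal, separated and of finite type. -/
structure Variety : Prop where
  integral : IsIntegral X
  separated : IsSeparated s
  finiteType : LocallyOfFiniteType s
  quasiCompact : QuasiCompact s
  normal : ∀ x : X, IsIntegrallyClosed (X.presheaf.stalk x)

variable [IsIntegral X]

variable (X) in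
/-- The function field of the integral scheme `X`. -/
def Fn : Type u := X.functionField

variable (X) in
noncomputable instance : Field (Fn X) := (inferInstance : Field X.functionField)

/-- The element of the function field given by an element of a local ring. -/
noncomputable def toFn {x : X} (a : X.presheaf.stalk x) : Fn X :=
  algebraMap (X.presheaf.stalk x) X.functionField a

/-- The order of vanishing of the rational function `h` at the point `z` (of codimension one). -/
noncomputable def ord [IsLocallyNoetherian X] (h : Fn X) (z : X) : ℤ :=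
  Scheme.ord (X := X) h z

/-- The function field of `X`, as a field extension of `k`. -/
def FF (_ : X ⟶ Spec (CommRingCat.of k)) : Type u := Fn X

noncomputable instance : Field (FF s) := (inferInstance : Field (Fn X))

/-- The structure of `k`-algebra on the function field: `k → Γ(X, O_X) → FF s`. -/
noncomputable instance : Algebra k (FF s) :=
  RingHom.toAlgebra ((Scheme.ΓSpecIso (CommRingCat.of k)).inv ≫ s.appTop ≫
    X.presheaf.germ ⊤ (genericPoint X) trivial).hom

/-- The local ring `O_{X,x}` as a `k`-subalgebra of the function field of `X`. -/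
noncomputable def localRing (x : X) : Subalgebra k (FF s) :=
  Algebra.adjoin k {f | ∃ a : X.presheaf.stalk x, toFn a = f}

end Variety

/-! ### 3. Rational 3-forms and discrete valuation rings of a function field -/

section Forms

variable {k : Type u} [Field k] {K : Type u} [Field K] [Algebra k K]

variable (k K) in
/-- The `K`-vector space of Kaehler differentials of `K / k`. -/
noncomputable def Diff : ModuleCat.{u} K := ModuleCat.of K (Ω[K⁄k])

variable (k) in
/-- The differential `da`. -/
noncomputable def diff (a : K) : Diff k K := KaehlerDifferential.D k K a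

variable (k K) in
/-- Rational `3`-forms: the third exterior power over `K` of the Kaehler differentials. -/
noncomputable def Form : ModuleCat.{u} K := (Diff k K).exteriorPower 3

variable (k) in
/-- The `3`-form `da ∧ db ∧ dc`. -/
noncomputable def wedge (a b c : K) : Form k K :=
  ModuleCat.exteriorPower.mk ![diff k a, diff k b, diff k c]

/-- For a `k`-subalgebra `O` of `K`: the group of the rational `3`-forms which are sums of forms
`r da ∧ db ∧ dc` with `r, a, b, c ∈ O` (the image of the third exterior power of `Ω_{O/k}`). -/
noncomputable def regularForms (O : Subalgebra k K) : AddSubgroup (Form k K) :=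
  AddSubgroup.closure {ω | ∃ r ∈ O, ∃ a ∈ O, ∃ b ∈ O, ∃ c ∈ O, ω = r • wedge k a b c}

/-- `π` is a uniformizer of the discrete valuation ring `O`. -/
def IsUniformizer (O : Subalgebra k K) (π : K) : Prop :=
  ∃ h : π ∈ O, Irreducible (⟨π, h⟩ : O)

/-- The valuation of `f ∈ K`, `f ≠ 0`, at the discrete valuation ring `O` is `n`:
`f = π ^ n u` with a uniformizer `π` and a unit `u` of `O`. -/
def HasOrd (O : Subalgebra k K) (f : K) (n : ℤ) : Prop :=
  ∃ π, IsUniformizer O π ∧ ∃ u ∈ O, u⁻¹ ∈ O ∧ u ≠ 0 ∧ f = π ^ n * u

/-- The order of the rational `3`-form `ω` at the discrete valuation ring `O` is `n`: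
`ω` lies in `π ^ n` times the lattice of regular forms, but not in `π ^ (n+1)` times it. -/
def HasFormOrd (O : Subalgebra k K) (ω : Form k K) (n : ℤ) : Prop :=
  ∃ π, IsUniformizer O π ∧ (∃ η ∈ regularForms O, ω = π ^ n • η) ∧
    ¬ ∃ η ∈ regularForms O, ω = π ^ (n + 1) • η

/-- A divisorial valuation ring of a three-dimensional function field `K / k`: a `k`-subalgebra
of `K`, which is a discrete valuation ring with fraction field `K` and whose residue field has
transcendence degree two over `k`. -/
structure IsDivisorial (O : Subalgebra k K) : Prop where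
  dvr : IsDiscreteValuationRing O
  frac : IsFractionRing O K
  trdeg : Algebra.trdeg k (IsLocalRing.ResidueField O) = 2

end Forms

/-! ### 4. Divisors on an integral scheme -/

section Divisors

variable {X : Scheme.{u}} [IsIntegral X] [IsLocallyNoetherian X]

/-- `h` is a local equation at the point `x` of the Weil divisor `D`: the orders of vanishing of
`h` agree with `D` at all points of codimension one whose closure contains `x`. -/
def LocalEq (D : X → ℤ) (x : X) (h : Fn X) : Prop :=
  h ≠ 0 ∧ ∀ z : X, coheight z = 1 → z ⤳ x → ord h z = D z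

/-- `D` is a Cartier divisor (on a normal scheme): it is locally principal, i.e. every point has
an open neighbourhood on which `D` is the divisor of a nonzero rational function. -/
def IsCartier (D : X → ℤ) : Prop :=
  ∀ x : X, ∃ U : X.Opens, x ∈ U ∧ ∃ h : Fn X, h ≠ 0 ∧
    ∀ z : X, z ∈ U → coheight z = 1 → ord h z = D z

/-- The Cartier divisor `D` is ample relative to `f : X ⟶ Y`: every point of `Y` has an affine
open neighbourhood `V` such that every point `x` of `f⁻¹ V` lies in an affine open set which is
the non-vanishing locus in `f⁻¹ V` of a section `g` over `f⁻¹ V` of `O(n D)` for some `n > 0`. -/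
def Ample {Y : Scheme.{u}} (f : X ⟶ Y) (D : X → ℤ) : Prop :=
  IsCartier D ∧ ∀ y : Y, ∃ V : Y.Opens, IsAffineOpen V ∧ y ∈ V ∧ ∀ x : X, f x ∈ V →
    ∃ (n : ℕ) (g : Fn X), 0 < n ∧ g ≠ 0 ∧
      (∀ z : X, coheight z = 1 → f z ∈ V → 0 ≤ ord g z + n * D z) ∧
      ∃ U : X.Opens, IsAffineOpen U ∧ x ∈ U ∧ ∀ x' : X, x' ∈ U ↔
        (f x' ∈ V ∧ ∀ z : X, coheight z = 1 → z ⤳ x' → ord g z + n * D z = 0)

/-- The `ℚ`-divisor `D` is ample relative to `f`: some positive integral multiple is an ample
Cartier divisor. -/
def AmpleQ {Y : Scheme.{u}} (f : X ⟶ Y) (D : X → ℚ) : Prop :=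
  ∃ (N : ℕ) (D' : X → ℤ), 0 < N ∧ (∀ z : X, coheight z = 1 → (D' z : ℚ) = N * D z) ∧ Ample f D'

end Divisors

/-! ### 5. Canonical divisors and klt pairs -/

section Klt

variable {k : Type u} [Field k] {X : Scheme.{u}} (s : X ⟶ Spec (CommRingCat.of k)) [IsIntegral X]

/-- `KX` is the canonical divisor of the threefold `X` given by the nonzero rational
`3`-form `ω`. -/
def IsCanonical (ω : Form k (FF s)) (KX : X → ℤ) : Prop :=
  ω ≠ 0 ∧ ∀ z : X, coheight z = 1 → HasFormOrd (localRing s z) ω (KX z)

/-- The valuation ring `O` of the function field has centre `x` on `X`: it dominates the local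
ring of `X` at `x` (it contains it, and its units in the local ring are units there). -/
def HasCentre (O : Subalgebra k (FF s)) (x : X) : Prop :=
  localRing s x ≤ O ∧ ∀ f ∈ localRing s x, f⁻¹ ∈ O → f⁻¹ ∈ localRing s x

/-- The pair `(X, Δ)` is klt: `Δ` is an effective `ℚ`-divisor, `K_X + Δ` is `ℚ`-Cartier
(`N (K_X + Δ)` is integral and Cartier), and for every divisorial valuation ring `O` with centre
on `X` the log discrepancy `1 + ord_O(ω) - ord_O(h) / N` is positive, where `h` is a local
equation of `N (K_X + Δ)` at the centre and `K_X = div(ω)`. -/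
structure Klt [IsLocallyNoetherian X] (Δ : X → ℚ) : Prop where
  effective : ∀ z, 0 ≤ Δ z
  support : {z | Δ z ≠ 0}.Finite ∧ ∀ z, Δ z ≠ 0 → coheight z = 1
  logDiscrepancy : ∃ (ω : Form k (FF s)) (KX : X → ℤ), IsCanonical s ω KX ∧
    ∃ (N : ℕ) (D : X → ℤ), 0 < N ∧
      (∀ z, coheight z = 1 → (D z : ℚ) = N * (KX z + Δ z)) ∧ IsCartier D ∧
      ∀ (O : Subalgebra k (FF s)) (x : X), IsDivisorial O → HasCentre s O x →
        ∀ h, LocalEq D x h → ∀ a b : ℤ, HasFormOrd O ω a → HasOrd O h b →
          (0 : ℚ) < 1 + a - b / N

/-- A klt threefold: a normal quasi-projective threefold `X` with an effective `ℚ`-divisor `Δ`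
such that `(X, Δ)` is klt. -/
structure KltThreefold [IsLocallyNoetherian X] (Δ : X → ℚ) : Prop where
  variety : Variety s
  dim : Algebra.trdeg k (FF s) = 3
  quasiProjective : ∃ D : X → ℤ, Ample s D
  klt : Klt s Δ

end Klt

/-! ### 6. Intersection numbers and the relative Picard number -/

section Intersection

variable {k : Type u} [Field k] {X Y : Scheme.{u}}

/-- `i : C ⟶ X` is (the inclusion of) a proper integral curve (over `k`) which is contracted to a
point by the morphism `f`. -/
structure ContractedCurve (s : X ⟶ Spec (CommRingCat.of k)) (f : X ⟶ Y) {C : Scheme.{u}}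
    (i : C ⟶ X) : Prop where
  integral : IsIntegral C
  closed : IsClosedImmersion i
  proper : IsProper (i ≫ s)
  dim : topologicalKrullDim C = 1
  contracted : ∃ y : Y, ∀ c : C, f (i c) = y

/-- The restriction to `C` of a function which is regular at the generic point of `i : C ⟶ X`. -/
noncomputable def restrict {C : Scheme.{u}} [IsIntegral C] (i : C ⟶ X)
    (a : X.presheaf.stalk (i (genericPoint C))) : Fn C :=
  (i.stalkMap (genericPoint C)).hom a

/-- The degree of the Cartier divisor `D` on the curve `i : C ⟶ X` is `n`.  After adding the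
divisor of a rational function `g` the generic point of `C` is not in the support of the divisor;
`u c` is a local equation at `i c` of `D + div g`, it is a unit `t c` of the local ring of `X`
at the generic point of `C`, and the degree is the sum over the points `c` of codimension one of
`C` of the orders of vanishing of its restriction to `C` (the residue field of `c` is `k`, as `k`
is algebraically closed). -/
def DegOn [IsIntegral X] [IsLocallyNoetherian X] {C : Scheme.{u}} [IsIntegral C]
    [IsLocallyNoetherian C] (i : C ⟶ X) (D : X → ℤ) (n : ℤ) : Prop :=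
  ∃ (g : Fn X) (t : C → X.presheaf.stalk (i (genericPoint C))), g ≠ 0 ∧
    (∀ c, IsUnit (t c) ∧ LocalEq (fun z ↦ D z + ord g z) (i c) (toFn (t c))) ∧
    n = ∑ᶠ c : C, ord (restrict i (t c)) c

/-- The Cartier divisor `D` is numerically trivial relative to `f`: it has degree zero on all
contracted curves. -/
def NumTrivial [IsIntegral X] [IsLocallyNoetherian X] (s : X ⟶ Spec (CommRingCat.of k))
    (f : X ⟶ Y) (D : X → ℤ) : Prop :=
  ∀ (C : Scheme.{u}) (_ : IsIntegral C) (_ : IsLocallyNoetherian C) (i : C ⟶ X),
    ContractedCurve s f i → ∀ n, DegOn i D n → n = 0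

/-- The relative Picard number of `f` is one: modulo numerical equivalence and torsion the
Cartier divisors on `X` form a group of rank one. -/
def RelPicardOne [IsIntegral X] [IsLocallyNoetherian X] (s : X ⟶ Spec (CommRingCat.of k))
    (f : X ⟶ Y) : Prop :=
  ∃ H : X → ℤ, IsCartier H ∧ ¬ NumTrivial s f H ∧
    ∀ D : X → ℤ, IsCartier D → ∃ a b : ℤ, a ≠ 0 ∧ NumTrivial s f (fun z ↦ a * D z - b * H z)

end Intersection

/-! ### 7. Flips -/

section Flip

variable {k : Type u} [Field k]

/-- `f` is a small birational morphism: it is an isomorphism over a non-empty open set of `Y`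
whose preimage contains all points of codimension at most one of `X`. -/
def IsSmall {X Y : Scheme.{u}} (f : X ⟶ Y) : Prop :=
  ∃ V : Y.Opens, (V : Set Y).Nonempty ∧ IsIso (f ∣_ V) ∧ ∀ x : X, coheight x ≤ 1 → f x ∈ V

/-- `f : X ⟶ Y` and `f' : X' ⟶ Y` is a `(K_X + Δ)`-flip of schemes over `k` (with structure
morphisms `t`, `f ≫ t`, `f' ≫ t`): `f` and `f'` are small proper birational morphisms of
normal varieties, `Y` is quasi-projective, `-(K_X + Δ)` is `f`-ample, the relative Picard number
of `f` is one, `K_{X'} + Δ'` is `f'`-ample, and `Δ'` is the strict transform of `Δ`.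
(A proper morphism with a relatively ample divisor is projective, so `X'` is quasi-projective,
too.  The flip `X'` is determined by `(X, Δ)` and `f`.) -/
structure IsFlip {X Y X' : Scheme.{u}} [IsIntegral X] [IsLocallyNoetherian X] [IsIntegral Y]
    [IsLocallyNoetherian Y] [IsIntegral X'] [IsLocallyNoetherian X']
    (t : Y ⟶ Spec (CommRingCat.of k)) (f : X ⟶ Y) (f' : X' ⟶ Y)
    (Δ : X → ℚ) (Δ' : X' → ℚ) : Prop where
  varietyX : Variety (f ≫ t)
  varietyY : Variety t
  varietyX' : Variety (f' ≫ t)
  quasiProjectiveY : ∃ D : Y → ℤ, Ample t D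
  proper : IsProper f
  proper' : IsProper f'
  small : IsSmall f
  small' : IsSmall f'
  negative : ∃ (ω : Form k (FF (f ≫ t))) (KX : X → ℤ), IsCanonical (f ≫ t) ω KX ∧
    AmpleQ f (fun z ↦ -(KX z + Δ z))
  picard : RelPicardOne (f ≫ t) f
  positive : ∃ (ω : Form k (FF (f' ≫ t))) (KX : X' → ℤ), IsCanonical (f' ≫ t) ω KX ∧
    AmpleQ f' (fun z ↦ KX z + Δ' z)
  support : ∀ z, Δ' z ≠ 0 → coheight z = 1
  strict : ∀ (x : X) (x' : X'), coheight x = 1 → coheight x' = 1 → f x = f' x' → Δ' x' = Δ x

end Flip

end Flip
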