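import Pool.Agent.Lib.H1F.Defs
import Pool.Agent.Lib.H1F.Stmt
import Pool.Agent.Lib.H1F.NLS.NL5

/-!
# H1F: translation between the definitions of `Defs.lean` and those of `Stmt.lean`
-/

open CategoryTheory CategoryTheory.Limits AlgebraicGeometry Order

universe u

namespace H1F.Trans

/-! ### Fields -/

section Forms

variable {k : Type u} [Field k] {K : Type u} [Field K] [Algebra k K]

/-- The same form, in the bundled exterior power. -/
noncomputable def up (ω : Form k K) : Flip.Form k K := ω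

theorem up_injective : Function.Injective (up : Form k K → Flip.Form k K) := fun _ _ h ↦ h

theorem up_surjective (ω : Flip.Form k K) : ∃ η : Form k K, up η = ω := ⟨ω, rfl⟩

theorem up_add (ω η : Form k K) : up (ω + η) = up ω + up η := rfl

theorem up_zero : up (0 : Form k K) = 0 := rfl

theorem up_neg (ω : Form k K) : up (-ω) = -up ω := rfl

theorem up_smul (r : K) (ω : Form k K) : up (r • ω) = r • up ω := rfl

theorem up_wedge (a b c : K) : up (wedge a b c : Form k K) = Flip.wedge k a b c := by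
  change exteriorPower.ιMulti K 3 _ = exteriorPower.ιMulti K 3 _
  congr 1

theorem up_mem (O : Subalgebra k K) (ω : Form k K) :
    up ω ∈ Flip.regularForms O ↔ ω ∈ regularForms O := by
  constructor
  · intro h
    obtain ⟨η, hη⟩ : ∃ η : Form k K, up η = up ω ∧ η ∈ regularForms O := by
      refine AddSubgroup.closure_induction (p := fun y _ ↦ ∃ η : Form k K, up η = y ∧
        η ∈ regularForms O) ?_ ?_ ?_ ?_ h
      · rintro _ ⟨r, hr, a, ha, b, hb, c, hc, rfl⟩
        refine ⟨(⟨r, hr⟩ : O) • wedge a b c, ?_, Submodule.smul_mem _ _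
          (Submodule.subset_span ⟨a, ha, b, hb, c, hc, rfl⟩)⟩
        rw [← up_wedge]
        rfl
      · exact ⟨0, rfl, zero_mem _⟩
      · rintro _ _ _ _ ⟨η, rfl, hη⟩ ⟨η', rfl, hη'⟩
        exact ⟨η + η', rfl, add_mem hη hη'⟩
      · rintro _ _ ⟨η, rfl, hη⟩
        exact ⟨-η, rfl, neg_mem hη⟩
    have := up_injective hη.1
    rw [← this]
    exact hη.2
  · intro h
    refine Submodule.span_induction (p := fun y _ ↦ up y ∈ Flip.regularForms O) ?_ ?_ ?_ ?_ h
    · rintro _ ⟨a, ha, b, hb, c, hc, rfl⟩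
      refine AddSubgroup.subset_closure ⟨1, one_mem _, a, ha, b, hb, c, hc, ?_⟩
      rw [up_wedge, one_smul]
    · exact zero_mem _
    · intro x y _ _ hx hy
      exact add_mem hx hy
    · intro r x _ hx
      refine AddSubgroup.closure_induction (p := fun y _ ↦ (r : K) • y ∈ Flip.regularForms O)
        ?_ ?_ ?_ ?_ hx
      · rintro _ ⟨s, hs, a, ha, b, hb, c, hc, rfl⟩
        refine AddSubgroup.subset_closure ⟨r * s, mul_mem r.2 hs, a, ha, b, hb, c, hc, ?_⟩
        rw [smul_smul]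
      · rw [smul_zero]
        exact zero_mem _
      · intro y y' _ _ hy hy'
        rw [smul_add]
        exact add_mem hy hy'
      · intro y _ hy
        rw [smul_neg]
        exact neg_mem hy

theorem hasFormOrd (O : Subalgebra k K) (ω : Form k K) (n : ℤ) :
    Flip.HasFormOrd O (up ω) n ↔ HasFormOrd O ω n := by
  have h : ∀ (π : K) (m : ℤ), (∃ η ∈ Flip.regularForms O, up ω = π ^ m • η) ↔
      ∃ η ∈ regularForms O, ω = π ^ m • η := fun π m ↦ by
    constructor
    · rintro ⟨η, hη, h⟩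
      obtain ⟨η, rfl⟩ := up_surjective η
      exact ⟨η, (up_mem O η).1 hη, h⟩
    · rintro ⟨η, hη, h⟩
      exact ⟨up η, (up_mem O η).2 hη, h⟩
  unfold Flip.HasFormOrd HasFormOrd
  refine exists_congr fun π ↦ and_congr Iff.rfl (and_congr (h π n) (not_congr (h π (n + 1))))

theorem hasOrd (O : Subalgebra k K) (f : K) (n : ℤ) : Flip.HasOrd O f n ↔ HasOrd O f n := by
  refine exists_congr fun π ↦ and_congr Iff.rfl ?_
  constructor
  · rintro ⟨u, hu, hu', hu0, h⟩
    exact ⟨⟨⟨u, hu⟩, ⟨u⁻¹, hu'⟩, Subtype.ext (mul_inv_cancel₀ hu0),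
      Subtype.ext (inv_mul_cancel₀ hu0)⟩, h⟩
  · rintro ⟨u, h⟩
    have h1 : ((u : O) : K) * ((u⁻¹ : Oˣ) : O) = 1 :=
      congrArg (Subtype.val : O → K) (Units.mul_inv u)
    have h2 : (((u⁻¹ : Oˣ) : O) : K) = ((u : O) : K)⁻¹ := eq_inv_of_mul_eq_one_right h1
    exact ⟨((u : O) : K), (u : O).2, h2 ▸ ((u⁻¹ : Oˣ) : O).2, left_ne_zero_of_mul_eq_one h1, h⟩

theorem isDivisorial {O : Subalgebra k K} (h : Flip.IsDivisorial O) : IsDivisorial O :=
  ⟨h.dvr, h.frac, h.trdeg⟩

end Forms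

/-! ### Schemes -/

section Schemes

variable {k : Type u} [Field k]

theorem liftsOver (p : ℕ) [Fact p.Prime] (m : ℕ) (hm : 0 < m)
    (X : Over (Spec (CommRingCat.of k))) :
    Flip.LiftsOver p m hm X.hom ↔ LiftsOver p k m hm X := by
  constructor
  · rintro ⟨𝒳, g, i, hg, h⟩
    refine ⟨𝒳, g, hg, ⟨(Over.isoMk h.isoPullback ?_).symm⟩⟩
    exact h.isoPullback_hom_snd
  · intro h
    obtain ⟨𝒳, g, i, hg, h⟩ := exists_pullback_of_liftsOver p m hm h
    exact ⟨𝒳, g, i, hg, h⟩

theorem variety {X : Over (Spec (CommRingCat.of k))} (h : Variety k X) : Flip.Variety X.hom :=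
  ⟨h.integral, h.separated, h.finiteType, h.quasiCompact, h.normal⟩

theorem localRing (X : Over (Spec (CommRingCat.of k))) [IsIntegral X.left] (x : X.left) :
    Flip.localRing X.hom x = H1F.localRing k X x := rfl

theorem hasCentre {X : Over (Spec (CommRingCat.of k))} [IsIntegral X.left]
    {O : Subalgebra k X.left.functionField} {x : X.left} (h : Flip.HasCentre X.hom O x) :
    HasCentre k X O x := by
  intro a
  have h0 : algebraMap _ X.left.functionField a ∈ H1F.localRing k X x :=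
    (mem_localRing X x _).2 ⟨a, rfl⟩
  refine ⟨h.1 h0, fun hu ↦ ?_⟩
  obtain ⟨v, hv⟩ := hu.exists_right_inv
  have h1 : algebraMap _ X.left.functionField a * (v : X.left.functionField) = 1 :=
    congrArg Subtype.val hv
  have h2 : (v : X.left.functionField) = (algebraMap _ X.left.functionField a)⁻¹ :=
    eq_inv_of_mul_eq_one_right h1
  have h3 : (algebraMap _ X.left.functionField a)⁻¹ ∈ H1F.localRing k X x :=
    h.2 _ h0 (h2 ▸ v.2)
  obtain ⟨b, hb⟩ := (mem_localRing X x _).1 h3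
  refine IsUnit.of_mul_eq_one b ?_
  apply IsFractionRing.injective (X.left.presheaf.stalk x) X.left.functionField
  rw [map_mul, hb, map_one]
  exact mul_inv_cancel₀ (left_ne_zero_of_mul_eq_one h1)

theorem isCanonical {X : Over (Spec (CommRingCat.of k))} [IsIntegral X.left]
    {ω : Form k X.left.functionField} {KX : X.left → ℤ} (h : IsCanonical k X ω KX) :
    Flip.IsCanonical X.hom (up ω) KX :=
  ⟨fun h0 ↦ h.1 (up_injective h0), fun z hz ↦ (hasFormOrd _ _ _).2 (h.2 z hz)⟩

theorem klt {X : Over (Spec (CommRingCat.of k))} [IsIntegral X.left]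
    [IsLocallyNoetherian X.left] {Δ : X.left → ℚ} (h : Klt k X Δ) : Flip.Klt X.hom Δ := by
  obtain ⟨h1, h2, ω, KX, hc, N, D, hN, hD, hC, hdis⟩ := h
  refine ⟨h1, h2, up ω, KX, isCanonical hc, N, D, hN, hD, hC, ?_⟩
  intro O x hO hx f hf a b ha hb
  exact hdis O x (isDivisorial hO) (hasCentre hx) f hf a b ((hasFormOrd _ _ _).1 ha)
    ((hasOrd _ _ _).1 hb)

theorem kltThreefold {X : Over (Spec (CommRingCat.of k))} [IsIntegral X.left]
    [IsLocallyNoetherian X.left] {Δ : X.left → ℚ} (h : KltThreefold k X Δ) :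
    Flip.KltThreefold X.hom Δ :=
  ⟨variety h.variety, h.dim, h.quasiProjective, klt h.klt⟩

theorem contractedCurve {X Y : Over (Spec (CommRingCat.of k))} (f : X ⟶ Y) {C : Scheme.{u}}
    (i : C ⟶ X.left) : Flip.ContractedCurve X.hom f.left i ↔ ContractedCurve k f i :=
  ⟨fun h ↦ ⟨h.1, h.2, h.3, h.4, h.5⟩, fun h ↦ ⟨h.1, h.2, h.3, h.4, h.5⟩⟩

theorem degOn {X : Scheme.{u}} [IsIntegral X] [IsLocallyNoetherian X] {C : Scheme.{u}}
    [IsIntegral C] [IsLocallyNoetherian C] (i : C ⟶ X) (D : X → ℤ) (n : ℤ) :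
    Flip.DegOn i D n ↔ DegOn i D n := by
  constructor
  · rintro ⟨g, t, hg, ht, hn⟩
    refine ⟨g, fun c ↦ algebraMap _ X.functionField (t c), fun c ↦ (ht c).1.unit, hg,
      fun c ↦ (ht c).2, fun c ↦ rfl, hn⟩
  · rintro ⟨g, v, t, hg, hv, ht, hn⟩
    refine ⟨g, fun c ↦ t c, hg, fun c ↦ ⟨(t c).isUnit, ?_⟩, hn⟩
    have := hv c
    rw [← ht c] at this
    exact this

theorem numTrivial {X Y : Over (Spec (CommRingCat.of k))} [IsIntegral X.left]
    [IsLocallyNoetherian X.left] (f : X ⟶ Y) (D : X.left → ℤ) :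
    Flip.NumTrivial X.hom f.left D ↔ NumTrivial k f D := by
  constructor
  · intro h C _ _ i hi n hn
    exact h C _ _ i ((contractedCurve f i).2 hi) n ((degOn i D n).2 hn)
  · intro h C _ _ i hi n hn
    exact h C _ _ i ((contractedCurve f i).1 hi) n ((degOn i D n).1 hn)

theorem relPicardOne {X Y : Over (Spec (CommRingCat.of k))} [IsIntegral X.left]
    [IsLocallyNoetherian X.left] {f : X ⟶ Y} (h : RelPicardOne k f) :
    Flip.RelPicardOne X.hom f.left := by
  obtain ⟨H, hH, h1, h2⟩ := h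
  refine ⟨H, hH, fun h3 ↦ h1 ((numTrivial f H).1 h3), fun D hD ↦ ?_⟩
  obtain ⟨a, b, ha, hab⟩ := h2 D hD
  exact ⟨a, b, ha, (numTrivial f _).2 hab⟩

theorem isFlip {X Y X' : Over (Spec (CommRingCat.of k))} [IsIntegral X.left]
    [IsLocallyNoetherian X.left] [IsIntegral Y.left] [IsLocallyNoetherian Y.left]
    [IsIntegral X'.left] [IsLocallyNoetherian X'.left]
    {f : X ⟶ Y} {f' : X' ⟶ Y} {Δ : X.left → ℚ} {Δ' : X'.left → ℚ} (h : IsFlip k f f' Δ Δ') :
    Flip.IsFlip Y.hom f.left f'.left Δ Δ' := by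
  have e : f.left ≫ Y.hom = X.hom := Over.w f
  have e' : f'.left ≫ Y.hom = X'.hom := Over.w f'
  refine ⟨e ▸ variety h.varietyX, variety h.varietyY, e' ▸ variety h.varietyX',
    h.quasiProjectiveY, h.proper, h.proper', h.small, h.small', ?_, e ▸ relPicardOne h.picard,
    ?_, h.support, h.strict⟩
  · rw [e]
    obtain ⟨ω, KX, hc, ha⟩ := h.negative
    exact ⟨up ω, KX, isCanonical hc, ha⟩
  · rw [e']
    obtain ⟨ω, KX, hc, ha⟩ := h.positive
    exact ⟨up ω, KX, isCanonical hc, ha⟩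

end Schemes

end H1F.Trans
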