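import Pool.Agent.Lib.H1F.Final
import Pool.Agent.Lib.H1F.Trans

/-!
# H1F: the final theorem in the notation of `Stmt.lean`
-/

open CategoryTheory AlgebraicGeometry Order

universe u

namespace H1F

theorem exists_example' (p : ℕ) [Fact p.Prime] (hp : 5 ≤ p) (k : Type u) [Field k]
    [IsAlgClosed k] [CharP k p] :
    ∃ (X Y X' : Scheme.{u}) (_ : IsIntegral X) (_ : IsLocallyNoetherian X) (_ : IsIntegral Y)
      (_ : IsLocallyNoetherian Y) (_ : IsIntegral X') (_ : IsLocallyNoetherian X')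
      (t : Y ⟶ Spec (CommRingCat.of k)) (f : X ⟶ Y) (f' : X' ⟶ Y) (Δ : X → ℚ) (Δ' : X' → ℚ),
      Flip.KltThreefold (f ≫ t) Δ ∧ Flip.IsFlip t f f' Δ Δ' ∧
      (∀ (m : ℕ) (hm : 0 < m), Flip.LiftsOver p m hm (f ≫ t)) ∧
      ¬ Flip.LiftsOver p 2 Nat.two_pos (f' ≫ t) := by
  obtain ⟨X, Y, X', iX, nX, iY, nY, iX', nX', f, f', Δ, Δ', hk, hflip, hl, hnl⟩ :=
    exists_example p hp k
  have e : f.left ≫ Y.hom = X.hom := Over.w f
  have e' : f'.left ≫ Y.hom = X'.hom := Over.w f'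
  refine ⟨X.left, Y.left, X'.left, iX, nX, iY, nY, iX', nX', Y.hom, f.left, f'.left, Δ, Δ', ?_,
    Trans.isFlip hflip, ?_, ?_⟩
  · rw [e]
    exact Trans.kltThreefold hk
  · intro m hm
    rw [e]
    exact (Trans.liftsOver p m hm X).2 (hl m hm)
  · rw [e']
    intro h
    exact hnl ((Trans.liftsOver p 2 Nat.two_pos X').1 h)

end H1F
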