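import Mathlib

/-!
# H1F: the chart rings

`R₀` is the base ring (`k`, or `ℤ` for the lifting), `K` a field, `A v w : K` (think of
`A = x ^ p`, `v = x / y`, `w = x / z`).  All chart rings are `R₀`-subalgebras of `K`.
-/

namespace H1F

section Rings

variable (R₀ : Type*) [CommRing R₀] {K : Type*} [Field K] [Algebra R₀ K] (p : ℕ)

/-- The chart `NI (a; v, w)`: `R₀[b, q, s, 1/(1+bq), 1/(1-bs)]` with `b = v - 1`,
`q = (a - 1) / b`, `s = 1 / (w - 1)`. -/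
def NI (a v w : K) : Subalgebra R₀ K :=
  Algebra.adjoin R₀ {v - 1, (a - 1) / (v - 1), (w - 1)⁻¹, a⁻¹, (w - 1) / (w - v)}

/-- The chart `NII (a; v, w)`: `R₀[c, q', s, 1/(1+c), 1/(1-c q' s)]` with `c = a - 1`,
`q' = (v - 1) / c`, `s = 1 / (w - 1)`. -/
def NII (a v w : K) : Subalgebra R₀ K :=
  Algebra.adjoin R₀ {a - 1, (v - 1) / (a - 1), (w - 1)⁻¹, a⁻¹, (w - 1) / (w - v)}

/-- The ring of functions on the open set `N (a; v, w)` of the toric variety. -/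
def ON (a v w : K) : Subalgebra R₀ K :=
  Algebra.adjoin R₀ {a, a⁻¹, v, (w - 1)⁻¹, (w - 1) / (w - v)}

/-- The chart `M (a; v, w)`. -/
def MM (a v w : K) : Subalgebra R₀ K :=
  Algebra.adjoin R₀ {a, a⁻¹, (v - 1)⁻¹, (w - 1)⁻¹, (v - 1) ^ p / (a - v ^ p),
    (w - 1) ^ p / (a - w ^ p)}

/-- The chart `T6`. -/
def T6 (A v w : K) : Subalgebra R₀ K :=
  Algebra.adjoin R₀ {A, A⁻¹, v, v⁻¹, w, w⁻¹, (A - 1)⁻¹, (A - v ^ p)⁻¹, (A - w ^ p)⁻¹}

/-- The coordinate `n` of the chart `P2`. -/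
def nn (A v w : K) : K :=
  (w - 1) / (v - 1) * ((A - v ^ p) / (v - w) + (v ^ p - 1 - p * (v - 1)) / (v - 1))

/-- The chart `P2`: coordinates `s = (v-1)/(w-1)`, `r = w - 1`, `n`. -/
def P2 (A v w : K) : Subalgebra R₀ K :=
  Algebra.adjoin R₀ {(v - 1) / (w - 1), w - 1, nn p A v w, A⁻¹, v⁻¹, w⁻¹}

/-- The chart `P1`: coordinates `s' = 1 / s`, `r' = s r = v - 1`, `n' = -(s ^ 2 n + p s)`. -/
def P1 (A v w : K) : Subalgebra R₀ K :=
  Algebra.adjoin R₀ {(w - 1) / (v - 1), v - 1,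
    -(((v - 1) / (w - 1)) ^ 2 * nn p A v w + p * ((v - 1) / (w - 1))), A⁻¹, v⁻¹, w⁻¹}

/-- The coordinate `y` of the chart `P3` (characteristic `p` only). -/
def yy (A v w : K) : K :=
  (A - 1 - (v - 1) ^ (p - 1) * (w - 1)) / ((v - 1) * (w - 1) * (v - w))

/-- The chart `P3` (characteristic `p` only): coordinates `β = v - 1`, `δ = w - 1`, `y`. -/
def P3 (A v w : K) : Subalgebra R₀ K :=
  Algebra.adjoin R₀ {v - 1, w - 1, yy p A v w, A⁻¹, v⁻¹, w⁻¹}

/-- The chart `Y0` of `Y` (characteristic `p` only). -/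
def Y0 (A v w : K) : Subalgebra R₀ K :=
  Algebra.adjoin R₀ {v - 1, w - 1, (v - 1) ^ 2 * yy p A v w, (v - 1) * (w - 1) * yy p A v w,
    (w - 1) ^ 2 * yy p A v w, A⁻¹, v⁻¹, w⁻¹}

/-- The chart `P4` (characteristic `p` only), with the point `1/2 (1,1,1)`. -/
def P4 (A v w : K) : Subalgebra R₀ K :=
  Algebra.adjoin R₀ {v - 1, w - 1, (v - 1) ^ 2 * yy p A v w, (v - 1) * (w - 1) * yy p A v w,
    (w - 1) ^ 2 * yy p A v w, (yy p A v w)⁻¹, A⁻¹, v⁻¹, w⁻¹}

/-- The six frames `(a; v, w)`: `(x;y,z), (x;z,y), (y;x,z), (y;z,x), (z;x,y), (z;y,x)`. -/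
def fa (A v w : K) : Fin 6 → K := ![A, A, A / v ^ p, A / v ^ p, A / w ^ p, A / w ^ p]

/-- Second entry of the frames. -/
def fv (v w : K) : Fin 6 → K := ![v, w, v⁻¹, w / v, w⁻¹, v / w]

/-- Third entry of the frames. -/
def fw (v w : K) : Fin 6 → K := ![w, v, w / v, v⁻¹, v / w, w⁻¹]

/-- The names of the charts. -/
inductive Ch
  | NI (f : Fin 6) | NII (f : Fin 6) | M (i : Fin 3) | T6 | P1 | P2 | P3 | P4 | Y0
  deriving DecidableEq

/-- The ring of a chart. -/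
def ring (A v w : K) : Ch → Subalgebra R₀ K
  | .NI f => NI R₀ (fa p A v w f) (fv v w f) (fw v w f)
  | .NII f => NII R₀ (fa p A v w f) (fv v w f) (fw v w f)
  | .M 0 => MM R₀ p A v w
  | .M 1 => MM R₀ p (A / v ^ p) v⁻¹ (w / v)
  | .M 2 => MM R₀ p (A / w ^ p) w⁻¹ (v / w)
  | .T6 => T6 R₀ p A v w
  | .P1 => P1 R₀ p A v w
  | .P2 => P2 R₀ p A v w
  | .P3 => P3 R₀ p A v w
  | .P4 => P4 R₀ p A v w
  | .Y0 => Y0 R₀ p A v w

/-- The `18` charts of `X`. -/
def Ch.inX : Ch → Prop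
  | .NI _ => True | .NII _ => True | .M _ => True | .T6 => True | .P1 => True | .P2 => True
  | _ => False

/-- The `17` charts of the open part `V⁺` of `X⁺`. -/
def Ch.inV : Ch → Prop
  | .NI _ => True | .NII _ => True | .M _ => True | .T6 => True | .P3 => True
  | _ => False

/-- The `18` charts of `X⁺`. -/
def Ch.inX' : Ch → Prop
  | .NI _ => True | .NII _ => True | .M _ => True | .T6 => True | .P3 => True | .P4 => True
  | _ => False

/-- The `17` charts of `Y`. -/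
def Ch.inY : Ch → Prop
  | .NI _ => True | .NII _ => True | .M _ => True | .T6 => True | .Y0 => True
  | _ => False

end Rings

end H1F
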